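import Pool.Agent.Helper65.RogersN.Family

set_option autoImplicit false

open Nat.Partrec

namespace Pool.Agent.Helper65.RogersN

open Pool.Agent.Helper65.Rogers hiding P Q Cset alphaN betaN BB EE alphaN_even alphaN_odd
  betaN_even betaN_odd range_betaN ersh_betaN ersh_alphaN mem_P0 mem_Q0 mem_P1 mem_Q1 mem_P2
  mem_Q2 mem_P3 mem_Q3 mem_Cset P_ne_Q type_unique exists_of_mem_range numbering_structure
  exists_empty_code

/-- stage predicate for `m ≤ fF n x - 1` -/
def LF (n m s x : ℕ) : Prop :=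
  m = 0 ∨ (m + 1 ≤ n ∧ Cg (cOf x) (m + 1) s (Nat.pair (kOf x) x))

def LX (n m s x : ℕ) : Prop :=
  m = 0 ∨ (m + 1 ≤ n ∧ (Cg (cOf x) (m + 1) s (Nat.pair (kOf x) x) ∧ ¬ Xs s (jOf x)))

noncomputable def sX (n s x : ℕ) : ℕ := cXs n (cOf x) (Nat.pair (kOf x) x) (jOf x) s

def LT (n m s x : ℕ) : Prop := LX n m s x ∨ (Xs s (jOf x) ∧ m ≤ up (sX n s x - 1))

def LU (n m s x : ℕ) : Prop :=
  m ≤ 1 ∨ (m ≤ 2 ∧ (Xs s (jOf x) ∧ ¬ (sX n s x % 2 = 0 ∧ 2 ≤ sX n s x)))

theorem exists_LF {n m x : ℕ} : (∃ s, LF n m s x) ↔ m ≤ fF n x - 1 := by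
  unfold LF fF
  rcases m with _ | m
  · simp
  · have h1 : m + 1 ≤ cF n (cOf x) (Nat.pair (kOf x) x) - 1 ↔
        m + 1 + 1 ≤ cF n (cOf x) (Nat.pair (kOf x) x) := by omega
    rw [h1, le_cF]
    constructor
    · rintro ⟨s, h | ⟨h, h'⟩⟩
      · omega
      · exact ⟨h, s, h'⟩
    · rintro ⟨h, s, h'⟩
      exact ⟨s, Or.inr ⟨h, h'⟩⟩

theorem exists_LX {n m x : ℕ} : (∃ s, LX n m s x) ↔ m ≤ fX n x - 1 := by
  unfold LX fX
  rcases m with _ | m
  · simp
  · have h1 : m + 1 ≤ cX n (cOf x) (Nat.pair (kOf x) x) (jOf x) - 1 ↔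
        m + 1 + 1 ≤ cX n (cOf x) (Nat.pair (kOf x) x) (jOf x) := by omega
    rw [h1, le_cX]
    constructor
    · rintro ⟨s, h | ⟨h, h'⟩⟩
      · omega
      · exact ⟨h, s, h'⟩
    · rintro ⟨h, s, h'⟩
      exact ⟨s, Or.inr ⟨h, h'⟩⟩

theorem sX_eq {n s x : ℕ} (h : Xs s (jOf x)) : sX n s x = fX n x := cXs_eq h

theorem le_up (h : ℕ) : h ≤ up h := by
  unfold up
  split_ifs <;> omega

theorem exists_LT_pos {n m x : ℕ} (hX : X (jOf x)) :
    (∃ s, LT n m s x) ↔ m ≤ up (fX n x - 1) := by
  constructor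
  · rintro ⟨s, h | ⟨h, h'⟩⟩
    · exact (exists_LX.1 ⟨s, h⟩).trans (le_up _)
    · rwa [sX_eq h] at h'
  · intro h
    obtain ⟨s, hs⟩ := hX
    refine ⟨s, Or.inr ⟨hs, ?_⟩⟩
    rwa [sX_eq hs]

theorem exists_LT_neg {n m x : ℕ} (hX : ¬ X (jOf x)) :
    (∃ s, LT n m s x) ↔ m ≤ fF n x - 1 := by
  have h1 : fX n x = fF n x := cX_eq_cF hX
  rw [← h1, ← exists_LX]
  constructor
  · rintro ⟨s, h | ⟨h, _⟩⟩
    · exact ⟨s, h⟩
    · exact absurd ⟨s, h⟩ hX
  · rintro ⟨s, h⟩
    exact ⟨s, Or.inl h⟩

open Classical in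
theorem exists_LU {n m x : ℕ} :
    (∃ s, LU n m s x) ↔ m ≤ (if X (jOf x) ∧ ¬ ev (fX n x) then 2 else 1) := by
  split_ifs with h
  · obtain ⟨⟨s, hs⟩, h2⟩ := h
    constructor
    · rintro ⟨s, h | ⟨h, _⟩⟩
      · omega
      · exact h
    · intro hm
      refine ⟨s, Or.inr ⟨hm, hs, ?_⟩⟩
      rw [sX_eq hs]
      exact h2
  · constructor
    · rintro ⟨s, h' | ⟨_, h1, h2⟩⟩
      · exact h'
      · rw [sX_eq h1] at h2
        exact absurd ⟨⟨s, h1⟩, h2⟩ h
    · intro hm
      exact ⟨0, Or.inl hm⟩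

section PR

variable {α : Type*} [Primcodable α]

theorem primrec_LF (n : ℕ) {m s x : α → ℕ} (hm : Primrec m) (hs : Primrec s) (hx : Primrec x) :
    PrimrecPred fun a => LF n (m a) (s a) (x a) := by
  unfold LF
  exact (pp_eq hm (Primrec.const 0)).or ((pp_le (Primrec.succ.comp hm) (Primrec.const n)).and
    (primrec_Cg (primrec_cOf hx) (Primrec.succ.comp hm) hs (pr_pair (primrec_kOf hx) hx)))

theorem primrec_LX (n : ℕ) {m s x : α → ℕ} (hm : Primrec m) (hs : Primrec s) (hx : Primrec x) :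
    PrimrecPred fun a => LX n (m a) (s a) (x a) := by
  unfold LX
  exact (pp_eq hm (Primrec.const 0)).or ((pp_le (Primrec.succ.comp hm) (Primrec.const n)).and
    ((primrec_Cg (primrec_cOf hx) (Primrec.succ.comp hm) hs (pr_pair (primrec_kOf hx) hx)).and
      (primrec_Xs hs (primrec_jOf hx)).not))

theorem primrec_sX (n : ℕ) {s x : α → ℕ} (hs : Primrec s) (hx : Primrec x) :
    Primrec fun a => sX n (s a) (x a) := by
  unfold sX
  exact primrec_cXs n (primrec_cOf hx) (pr_pair (primrec_kOf hx) hx) (primrec_jOf hx) hs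

theorem primrec_up {f : α → ℕ} (hf : Primrec f) : Primrec fun a => up (f a) := by
  unfold up
  exact Primrec.ite (pp_eq (Primrec.nat_mod.comp hf (Primrec.const 2)) (Primrec.const 1)) hf
    (Primrec.succ.comp hf)

theorem primrec_LT (n : ℕ) {m s x : α → ℕ} (hm : Primrec m) (hs : Primrec s) (hx : Primrec x) :
    PrimrecPred fun a => LT n (m a) (s a) (x a) := by
  unfold LT
  exact (primrec_LX n hm hs hx).or ((primrec_Xs hs (primrec_jOf hx)).and
    (pp_le hm (primrec_up (Primrec.pred.comp (primrec_sX n hs hx)))))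

theorem primrec_LU (n : ℕ) {m s x : α → ℕ} (hm : Primrec m) (hs : Primrec s) (hx : Primrec x) :
    PrimrecPred fun a => LU n (m a) (s a) (x a) := by
  unfold LU
  have h1 := primrec_sX n hs hx
  exact (pp_le hm (Primrec.const 1)).or ((pp_le hm (Primrec.const 2)).and
    ((primrec_Xs hs (primrec_jOf hx)).and ((pp_eq (Primrec.nat_mod.comp h1 (Primrec.const 2))
      (Primrec.const 0)).and (pp_le (Primrec.const 2) h1)).not))

end PR

/-- case distinction with own-type value -/
def Own (p : Prop) (a b : Prop) : Prop := (p ∧ a) ∨ (¬ p ∧ b)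

theorem pp_own {α : Type*} [Primcodable α] {p a b : α → Prop} (hp : PrimrecPred p)
    (ha : PrimrecPred a) (hb : PrimrecPred b) : PrimrecPred fun x => Own (p x) (a x) (b x) :=
  (hp.and ha).or (hp.not.and hb)

theorem own_pos {p a b : Prop} (h : p) : Own p a b ↔ a := by
  unfold Own
  tauto

theorem own_neg {p a b : Prop} (h : ¬ p) : Own p a b ↔ b := by
  unfold Own
  tauto

def SP (n m s j x : ℕ) : Prop :=
  Own (tagOf x = 0) (Own (jOf x = j) (m ≤ 1) (LF n m s x))
    (Own (tagOf x = 1) (LF n m s x)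
      (Own (tagOf x = 2) (Own (jOf x = j) (m ≤ 1) (LX n m s x))
        (Own (jOf x = j) (LT n m s x) (LF n m s x))))

def SQ (n m s j x : ℕ) : Prop :=
  Own (tagOf x = 0) (Own (jOf x = j) (m ≤ 1) (LF n m s x))
    (Own (tagOf x = 1) (Own (jOf x = j) (m ≤ 1) (LF n m s x))
      (Own (tagOf x = 2) (LX n m s x) (LF n m s x)))

def SC (n m s j x : ℕ) : Prop :=
  Own (tagOf x = 0) (Own (jOf x = j) (m ≤ 1) (LF n m s x))
    (Own (tagOf x = 1) (Own (jOf x = j) (LT n m s x) (LF n m s x))
      (Own (tagOf x = 2) (Own (jOf x = j) (LU n m s x) (LX n m s x)) (LF n m s x)))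

open Classical in
noncomputable def hC (n j x : ℕ) : ℕ :=
  if tagOf x = 0 then (if jOf x = j then 1 else fF n x - 1)
  else if tagOf x = 1 then (if jOf x = j ∧ X j then up (fX n x - 1) else fF n x - 1)
  else if tagOf x = 2 then
    (if jOf x = j then (if X (jOf x) ∧ ¬ ev (fX n x) then 2 else 1) else fX n x - 1)
  else fF n x - 1

theorem exists_const {p : Prop} : (∃ _ : ℕ, p) ↔ p := by simp

theorem exists_SP {n m j x : ℕ} : (∃ s, SP n m s j x) ↔ m ≤ hP n j x := by
  classical
  unfold SP hP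
  by_cases h0 : tagOf x = 0
  · simp only [own_pos h0, if_pos h0]
    by_cases hj : jOf x = j
    · simp only [own_pos hj, if_pos hj]
      exact exists_const
    · simp only [own_neg hj, if_neg hj]
      exact exists_LF
  simp only [own_neg h0, if_neg h0]
  by_cases h1 : tagOf x = 1
  · simp only [own_pos h1, if_pos h1]
    exact exists_LF
  simp only [own_neg h1, if_neg h1]
  by_cases h2 : tagOf x = 2
  · simp only [own_pos h2, if_pos h2]
    by_cases hj : jOf x = j
    · simp only [own_pos hj, if_pos hj]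
      exact exists_const
    · simp only [own_neg hj, if_neg hj]
      exact exists_LX
  simp only [own_neg h2, if_neg h2]
  by_cases hj : jOf x = j
  · simp only [own_pos hj]
    by_cases hX : X j
    · rw [if_pos ⟨hj, hX⟩]
      exact exists_LT_pos (hj ▸ hX)
    · rw [if_neg fun h => hX h.2]
      exact exists_LT_neg (hj ▸ hX)
  · simp only [own_neg hj]
    rw [if_neg fun h => hj h.1]
    exact exists_LF

theorem exists_SQ {n m j x : ℕ} : (∃ s, SQ n m s j x) ↔ m ≤ hQ n j x := by
  classical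
  unfold SQ hQ
  by_cases h0 : tagOf x = 0
  · simp only [own_pos h0, if_pos h0]
    by_cases hj : jOf x = j
    · simp only [own_pos hj, if_pos hj]
      exact exists_const
    · simp only [own_neg hj, if_neg hj]
      exact exists_LF
  simp only [own_neg h0, if_neg h0]
  by_cases h1 : tagOf x = 1
  · simp only [own_pos h1, if_pos h1]
    by_cases hj : jOf x = j
    · simp only [own_pos hj, if_pos hj]
      exact exists_const
    · simp only [own_neg hj, if_neg hj]
      exact exists_LF
  simp only [own_neg h1, if_neg h1]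
  by_cases h2 : tagOf x = 2
  · simp only [own_pos h2, if_pos h2]
    exact exists_LX
  simp only [own_neg h2, if_neg h2]
  exact exists_LF

theorem exists_SC {n m j x : ℕ} : (∃ s, SC n m s j x) ↔ m ≤ hC n j x := by
  classical
  unfold SC hC
  by_cases h0 : tagOf x = 0
  · simp only [own_pos h0, if_pos h0]
    by_cases hj : jOf x = j
    · simp only [own_pos hj, if_pos hj]
      exact exists_const
    · simp only [own_neg hj, if_neg hj]
      exact exists_LF
  simp only [own_neg h0, if_neg h0]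
  by_cases h1 : tagOf x = 1
  · simp only [own_pos h1, if_pos h1]
    by_cases hj : jOf x = j
    · simp only [own_pos hj]
      by_cases hX : X j
      · rw [if_pos ⟨hj, hX⟩]
        exact exists_LT_pos (hj ▸ hX)
      · rw [if_neg fun h => hX h.2]
        exact exists_LT_neg (hj ▸ hX)
    · simp only [own_neg hj]
      rw [if_neg fun h => hj h.1]
      exact exists_LF
  simp only [own_neg h1, if_neg h1]
  by_cases h2 : tagOf x = 2
  · simp only [own_pos h2, if_pos h2]
    by_cases hj : jOf x = j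
    · simp only [own_pos hj]
      rw [if_pos hj]
      exact exists_LU
    · simp only [own_neg hj]
      rw [if_neg hj]
      exact exists_LX
  simp only [own_neg h2, if_neg h2]
  exact exists_LF

section PR2

variable {α : Type*} [Primcodable α]

theorem primrec_SP (n : ℕ) {m s j x : α → ℕ} (hm : Primrec m) (hs : Primrec s) (hj : Primrec j)
    (hx : Primrec x) : PrimrecPred fun a => SP n (m a) (s a) (j a) (x a) := by
  unfold SP
  have ht := primrec_tagOf hx
  have he := pp_eq (primrec_jOf hx) hj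
  have h1 := pp_le hm (Primrec.const 1)
  have hF := primrec_LF n hm hs hx
  have hX := primrec_LX n hm hs hx
  have hT := primrec_LT n hm hs hx
  exact pp_own (pp_eq ht (Primrec.const 0)) (pp_own he h1 hF)
    (pp_own (pp_eq ht (Primrec.const 1)) hF
      (pp_own (pp_eq ht (Primrec.const 2)) (pp_own he h1 hX) (pp_own he hT hF)))

theorem primrec_SQ (n : ℕ) {m s j x : α → ℕ} (hm : Primrec m) (hs : Primrec s) (hj : Primrec j)
    (hx : Primrec x) : PrimrecPred fun a => SQ n (m a) (s a) (j a) (x a) := by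
  unfold SQ
  have ht := primrec_tagOf hx
  have he := pp_eq (primrec_jOf hx) hj
  have h1 := pp_le hm (Primrec.const 1)
  have hF := primrec_LF n hm hs hx
  have hX := primrec_LX n hm hs hx
  exact pp_own (pp_eq ht (Primrec.const 0)) (pp_own he h1 hF)
    (pp_own (pp_eq ht (Primrec.const 1)) (pp_own he h1 hF)
      (pp_own (pp_eq ht (Primrec.const 2)) hX hF))

theorem primrec_SC (n : ℕ) {m s j x : α → ℕ} (hm : Primrec m) (hs : Primrec s) (hj : Primrec j)
    (hx : Primrec x) : PrimrecPred fun a => SC n (m a) (s a) (j a) (x a) := by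
  unfold SC
  have ht := primrec_tagOf hx
  have he := pp_eq (primrec_jOf hx) hj
  have h1 := pp_le hm (Primrec.const 1)
  have hF := primrec_LF n hm hs hx
  have hX := primrec_LX n hm hs hx
  have hT := primrec_LT n hm hs hx
  have hU := primrec_LU n hm hs hx
  exact pp_own (pp_eq ht (Primrec.const 0)) (pp_own he h1 hF)
    (pp_own (pp_eq ht (Primrec.const 1)) (pp_own he hT hF)
      (pp_own (pp_eq ht (Primrec.const 2)) (pp_own he hU hX) hF))

end PR2

theorem fF_le (n x : ℕ) : fF n x ≤ n := cF_le _ _ _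
theorem fX_le (n x : ℕ) : fX n x ≤ n := cX_le _ _ _ _

theorem hP_le {n : ℕ} (hn : 2 ≤ n) (j x : ℕ) : hP n j x ≤ n := by
  classical
  have h1 := fF_le n x
  have h2 := fX_le n x
  unfold hP up
  split_ifs <;> omega

theorem hQ_le {n : ℕ} (hn : 2 ≤ n) (j x : ℕ) : hQ n j x ≤ n := by
  classical
  have h1 := fF_le n x
  have h2 := fX_le n x
  unfold hQ
  split_ifs <;> omega

theorem hC_le {n : ℕ} (hn : 2 ≤ n) (j x : ℕ) : hC n j x ≤ n := by
  classical
  have h1 := fF_le n x
  have h2 := fX_le n x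
  unfold hC up
  split_ifs <;> omega

open Classical in
/-- the set `C_j`, equal to `P_j` or `Q_j` -/
noncomputable def Cset (n j : ℕ) : Set ℕ := if X j then Q n j else P n j

theorem mem_Cset (n j x : ℕ) : x ∈ Cset n j ↔ hC n j x % 2 = 1 := by
  classical
  by_cases hX : X j
  · have hC1 : Cset n j = Q n j := if_pos hX
    rw [hC1]
    simp only [Q, Set.mem_ofPred_eq, hQ, hC]
    by_cases h0 : tagOf x = 0
    · simp only [if_pos h0]
    simp only [if_neg h0]
    by_cases h1 : tagOf x = 1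
    · simp only [if_pos h1]
      by_cases hj : jOf x = j
      · rw [if_pos hj, if_pos ⟨hj, hX⟩]
        simp [up_odd]
      · rw [if_neg hj, if_neg fun h => hj h.1]
    simp only [if_neg h1]
    by_cases h2 : tagOf x = 2
    · simp only [if_pos h2]
      by_cases hj : jOf x = j
      · rw [if_pos hj]
        rw [← ev_iff]
        split_ifs with h
        · constructor
          · intro h'
            exact absurd h' h.2
          · intro h'
            exact absurd h' (by norm_num)
        · constructor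
          · intro _
            rfl
          · intro _
            by_contra h'
            exact h ⟨hj ▸ hX, h'⟩
      · rw [if_neg hj]
    simp only [if_neg h2]
  · have hC1 : Cset n j = P n j := if_neg hX
    rw [hC1]
    simp only [P, Set.mem_ofPred_eq, hP, hC]
    by_cases h0 : tagOf x = 0
    · simp only [if_pos h0]
    simp only [if_neg h0]
    by_cases h1 : tagOf x = 1
    · simp only [if_pos h1]
      rw [if_neg fun h => hX h.2]
    simp only [if_neg h1]
    by_cases h2 : tagOf x = 2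
    · simp only [if_pos h2]
      by_cases hj : jOf x = j
      · rw [if_pos hj, if_pos hj, if_neg fun h => hX (hj ▸ h.1)]
      · rw [if_neg hj, if_neg hj]
    simp only [if_neg h2]
    rw [if_neg fun h => hX h.2]

/-- the second numbering of the family -/
noncomputable def betaN (n i : ℕ) : Set ℕ :=
  if i % 2 = 0 then alphaN n (i / 2) else Cset n (i / 2)

theorem betaN_even (n j : ℕ) : betaN n (2 * j) = alphaN n j := by
  unfold betaN
  rw [if_pos (by omega)]
  congr 1
  omega

theorem betaN_odd (n j : ℕ) : betaN n (2 * j + 1) = Cset n j := by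
  unfold betaN
  rw [if_neg (by omega)]
  congr 1
  omega

theorem range_betaN (n : ℕ) : Set.range (betaN n) = Set.range (alphaN n) := by
  classical
  apply Set.Subset.antisymm
  · rintro _ ⟨i, rfl⟩
    unfold betaN
    split_ifs
    · exact ⟨_, rfl⟩
    · unfold Cset
      split_ifs
      · exact ⟨2 * (i / 2) + 1, alphaN_odd _ _⟩
      · exact ⟨2 * (i / 2), alphaN_even _ _⟩
  · rintro _ ⟨i, rfl⟩
    exact ⟨2 * i, betaN_even n i⟩

noncomputable def hB (n z : ℕ) : ℕ :=
  if z.unpair.1 % 2 = 0 then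
    (if z.unpair.1 / 2 % 2 = 0 then hP n (z.unpair.1 / 2 / 2) z.unpair.2
      else hQ n (z.unpair.1 / 2 / 2) z.unpair.2)
  else hC n (z.unpair.1 / 2) z.unpair.2

theorem ersh_betaN {n : ℕ} (hn : 2 ≤ n) :
    ErshovSigma n {z | z.unpair.2 ∈ betaN n z.unpair.1} := by
  classical
  refine ersh_of_counter (h := hB n) (fun z => ?_) ?_ fun z => ?_
  · unfold hB
    split_ifs
    · exact hP_le hn _ _
    · exact hQ_le hn _ _
    · exact hC_le hn _ _
  · have hm : Primrec fun q : (ℕ × ℕ) × ℕ => q.1.1 := Primrec.fst.comp Primrec.fst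
    have hz : Primrec fun q : (ℕ × ℕ) × ℕ => q.1.2 := Primrec.snd.comp Primrec.fst
    have hs : Primrec fun q : (ℕ × ℕ) × ℕ => q.2 := Primrec.snd
    have hi := pr_unpair1 hz
    have hx := pr_unpair2 hz
    have hdiv : Primrec fun q : (ℕ × ℕ) × ℕ => q.1.2.unpair.1 / 2 :=
      Primrec.nat_div.comp hi (Primrec.const 2)
    have hdiv2 : Primrec fun q : (ℕ × ℕ) × ℕ => q.1.2.unpair.1 / 2 / 2 :=
      Primrec.nat_div.comp hdiv (Primrec.const 2)
    have hmod : Primrec fun q : (ℕ × ℕ) × ℕ => q.1.2.unpair.1 % 2 :=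
      Primrec.nat_mod.comp hi (Primrec.const 2)
    have hmod2 : Primrec fun q : (ℕ × ℕ) × ℕ => q.1.2.unpair.1 / 2 % 2 :=
      Primrec.nat_mod.comp hdiv (Primrec.const 2)
    let R : (ℕ × ℕ) × ℕ → Prop := fun q =>
      Own (q.1.2.unpair.1 % 2 = 0)
        (Own (q.1.2.unpair.1 / 2 % 2 = 0)
          (SP n q.1.1 q.2 (q.1.2.unpair.1 / 2 / 2) q.1.2.unpair.2)
          (SQ n q.1.1 q.2 (q.1.2.unpair.1 / 2 / 2) q.1.2.unpair.2))
        (SC n q.1.1 q.2 (q.1.2.unpair.1 / 2) q.1.2.unpair.2)
    have hR : PrimrecPred R :=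
      pp_own (pp_eq hmod (Primrec.const 0))
        (pp_own (pp_eq hmod2 (Primrec.const 0)) (primrec_SP n hm hs hdiv2 hx)
          (primrec_SQ n hm hs hdiv2 hx))
        (primrec_SC n hm hs hdiv hx)
    refine re_of_exists_primrec hR fun q => ?_
    obtain ⟨m, z⟩ := q
    simp only [R, hB]
    by_cases h0 : z.unpair.1 % 2 = 0
    · simp only [own_pos h0, if_pos h0]
      by_cases h1 : z.unpair.1 / 2 % 2 = 0
      · simp only [own_pos h1, if_pos h1]
        exact exists_SP.symm
      · simp only [own_neg h1, if_neg h1]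
        exact exists_SQ.symm
    · simp only [own_neg h0, if_neg h0]
      exact exists_SC.symm
  · simp only [Set.mem_ofPred_eq, hB]
    unfold betaN
    by_cases h0 : z.unpair.1 % 2 = 0
    · rw [if_pos h0, if_pos h0]
      unfold alphaN
      by_cases h1 : z.unpair.1 / 2 % 2 = 0
      · rw [if_pos h1, if_pos h1]
        rfl
      · rw [if_neg h1, if_neg h1]
        rfl
    · rw [if_neg h0, if_neg h0, mem_Cset]

theorem ersh_alphaN {n : ℕ} (hn : 2 ≤ n) :
    ErshovSigma n {z | z.unpair.2 ∈ alphaN n z.unpair.1} := by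
  have h1 := ersh_comp (ersh_betaN hn) (f := fun i => 2 * i) Primrec.nat_double.to_comp
  have heq : {z : ℕ | z.unpair.2 ∈ alphaN n z.unpair.1} =
      {z : ℕ | z.unpair.2 ∈ betaN n (2 * z.unpair.1)} := by
    ext z
    simp only [Set.mem_ofPred_eq, betaN_even]
  rw [heq]
  exact h1

end Pool.Agent.Helper65.RogersN
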