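import Pool.Agent.Helper65.Rogers.Xprop
import Pool.Agent.Helper65.Rogers.Ershov

set_option autoImplicit false

open Nat.Partrec

namespace Pool.Agent.Helper65.RogersN

open Pool.Agent.Helper65.Rogers

/-- at least `m` changes at `z` by stage `s`, for the `e`-th set -/
def Cg (e m s z : ℕ) : Prop := ∀ i < m, wn e s (Nat.pair i z)

theorem Cg_mono {e m s s' z : ℕ} (h : s ≤ s') (hc : Cg e m s z) : Cg e m s' z :=
  fun i hi => wn_mono h (hc i hi)

theorem Cg_anti {e m m' s z : ℕ} (h : m' ≤ m) (hc : Cg e m s z) : Cg e m' s z :=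
  fun i hi => hc i (hi.trans_le h)

theorem not_Xs_zero (j : ℕ) : ¬ Xs 0 j := by
  rintro ⟨n, hn, _⟩
  exact absurd hn (Nat.not_lt_zero n)

open Classical in
/-- the final number of changes -/
noncomputable def cF (n e z : ℕ) : ℕ := Nat.findGreatest (fun m => ∃ s, Cg e m s z) n

open Classical in
/-- the number of changes before `j` enters `X` -/
noncomputable def cX (n e z j : ℕ) : ℕ :=
  Nat.findGreatest (fun m => ∃ s, Cg e m s z ∧ ¬ Xs s j) n

open Classical in
/-- stage version of `cX` -/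
noncomputable def cXs (n e z j s : ℕ) : ℕ :=
  Nat.findGreatest (fun m => ∃ s' < s, Cg e m s' z ∧ ¬ Xs s' j) n

theorem le_cF {n e z m : ℕ} : m ≤ cF n e z ↔ m ≤ n ∧ ∃ s, Cg e m s z := by
  classical
  constructor
  · intro h
    refine ⟨h.trans (Nat.findGreatest_le n), ?_⟩
    obtain ⟨s, hs⟩ := Nat.findGreatest_spec (P := fun m => ∃ s, Cg e m s z) (Nat.zero_le n)
      ⟨0, fun i hi => absurd hi (Nat.not_lt_zero i)⟩
    exact ⟨s, Cg_anti h hs⟩
  · rintro ⟨h1, h2⟩
    exact Nat.le_findGreatest h1 h2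

theorem le_cX {n e z j m : ℕ} : m ≤ cX n e z j ↔ m ≤ n ∧ ∃ s, Cg e m s z ∧ ¬ Xs s j := by
  classical
  constructor
  · intro h
    refine ⟨h.trans (Nat.findGreatest_le n), ?_⟩
    obtain ⟨s, hs, hs'⟩ := Nat.findGreatest_spec (P := fun m => ∃ s, Cg e m s z ∧ ¬ Xs s j)
      (Nat.zero_le n) ⟨0, fun i hi => absurd hi (Nat.not_lt_zero i), not_Xs_zero j⟩
    exact ⟨s, Cg_anti h hs, hs'⟩
  · rintro ⟨h1, h2⟩
    exact Nat.le_findGreatest h1 h2

theorem cX_eq_cF {n e z j : ℕ} (h : ¬ X j) : cX n e z j = cF n e z := by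
  refine eq_of_forall_le_iff fun m => ?_
  rw [le_cX, le_cF]
  refine and_congr_right fun _ => ?_
  constructor
  · rintro ⟨s, hs, _⟩
    exact ⟨s, hs⟩
  · rintro ⟨s, hs⟩
    exact ⟨s, hs, fun h' => h ⟨s, h'⟩⟩

theorem cXs_eq {n e z j s : ℕ} (h : Xs s j) : cXs n e z j s = cX n e z j := by
  classical
  unfold cXs cX
  congr 1
  funext m
  refine propext ⟨?_, ?_⟩
  · rintro ⟨s', _, h1⟩
    exact ⟨s', h1⟩
  · rintro ⟨s', h1, h2⟩
    refine ⟨s', ?_, h1, h2⟩
    by_contra hle
    exact h2 (Xs_mono (by omega) h)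

theorem cF_le (n e z : ℕ) : cF n e z ≤ n := by
  classical
  exact Nat.findGreatest_le n

theorem cX_le (n e z j : ℕ) : cX n e z j ≤ n := by
  classical
  exact Nat.findGreatest_le n

section PR

variable {α : Type*} [Primcodable α]

theorem primrec_Cg {e m s z : α → ℕ} (he : Primrec e) (hm : Primrec m) (hs : Primrec s)
    (hz : Primrec z) : PrimrecPred fun a => Cg (e a) (m a) (s a) (z a) := by
  unfold Cg
  refine pp_forall_lt (R := fun q : α × ℕ => wn (e q.1) (s q.1) (Nat.pair q.2 (z q.1))) hm ?_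
  exact primrec_wn (he.comp Primrec.fst) (hs.comp Primrec.fst)
    (pr_pair Primrec.snd (hz.comp Primrec.fst))

theorem primrec_cXs (n : ℕ) {e z j s : α → ℕ} (he : Primrec e) (hz : Primrec z) (hj : Primrec j)
    (hs : Primrec s) : Primrec fun a => cXs n (e a) (z a) (j a) (s a) := by
  classical
  unfold cXs
  refine Primrec.nat_findGreatest (p := fun a m => ∃ s' < s a, Cg (e a) m s' (z a) ∧
    ¬ Xs s' (j a)) (Primrec.const n) ?_
  have h1 : PrimrecPred fun q : α × ℕ => ∃ s' < s q.1, Cg (e q.1) q.2 s' (z q.1) ∧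
      ¬ Xs s' (j q.1) := by
    refine pp_exists_lt (R := fun q : (α × ℕ) × ℕ => Cg (e q.1.1) q.1.2 q.2 (z q.1.1) ∧
      ¬ Xs q.2 (j q.1.1)) (hs.comp Primrec.fst) ?_
    have hf : Primrec fun q : (α × ℕ) × ℕ => q.1.1 := Primrec.fst.comp Primrec.fst
    exact (primrec_Cg (he.comp hf) (Primrec.snd.comp Primrec.fst) Primrec.snd (hz.comp hf)).and
      (primrec_Xs Primrec.snd (hj.comp hf)).not
  exact h1

end PR

/-- number of indices `m ∈ {1, …, n}` whose predicate has been seen -/
def cnt (f : ℕ × ℕ → ℕ → Bool) : ℕ → ℕ → ℕ → ℕ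
  | 0, _, _ => 0
  | n + 1, z, s => cnt f n z s + (if orUpTo (fun z s => f (n + 1, z) s) z s = true then 1 else 0)

theorem computable_cnt {f : ℕ × ℕ → ℕ → Bool} (hf : Computable₂ f) (n : ℕ) :
    Computable₂ (cnt f n) := by
  induction n with
  | zero => exact Computable.const 0
  | succ n ih =>
    have h1 : Computable₂ (orUpTo fun z s => f (n + 1, z) s) := by
      refine computable_orUpTo ?_
      exact hf.comp ((Computable.const (n + 1)).pair Computable.fst) Computable.snd
    have h2 : Computable fun q : ℕ × ℕ =>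
        (bif orUpTo (fun z s => f (n + 1, z) s) q.1 q.2 then 1 else 0 : ℕ) :=
      Computable.cond h1 (Computable.const 1) (Computable.const 0)
    have h3 : Computable fun q : ℕ × ℕ => cnt f n q.1 q.2 +
        (bif orUpTo (fun z s => f (n + 1, z) s) q.1 q.2 then 1 else 0 : ℕ) :=
      Primrec.nat_add.to_comp.comp ih h2
    refine h3.of_eq fun q => ?_
    simp only [cnt]
    cases orUpTo (fun z s => f (n + 1, z) s) q.1 q.2 <;> simp

theorem cnt_le (f : ℕ × ℕ → ℕ → Bool) (n z s : ℕ) : cnt f n z s ≤ n := by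
  induction n with
  | zero => exact le_rfl
  | succ n ih =>
    simp only [cnt]
    split_ifs <;> omega

theorem cnt_zero (f : ℕ × ℕ → ℕ → Bool) (n z : ℕ) : cnt f n z 0 = 0 := by
  induction n with
  | zero => rfl
  | succ n ih => simp [cnt, ih, orUpTo_zero]

theorem cnt_mono (f : ℕ × ℕ → ℕ → Bool) (n z : ℕ) {s s' : ℕ} (h : s ≤ s') :
    cnt f n z s ≤ cnt f n z s' := by
  induction n with
  | zero => exact le_rfl
  | succ n ih =>
    simp only [cnt]
    by_cases h1 : orUpTo (fun z s => f (n + 1, z) s) z s = true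
    · rw [if_pos h1, if_pos (orUpTo_mono h h1)]
      omega
    · rw [if_neg h1]
      split_ifs <;> omega

theorem cnt_limit {f : ℕ × ℕ → ℕ → Bool} {h : ℕ → ℕ}
    (hf : ∀ m z, m ≤ h z ↔ ∃ s, f (m, z) s = true) (n z : ℕ) :
    ∃ s₀, ∀ s ≥ s₀, cnt f n z s = min n (h z) := by
  induction n with
  | zero => exact ⟨0, fun s _ => by simp [cnt]⟩
  | succ n ih =>
    obtain ⟨s₀, hs₀⟩ := ih
    by_cases hn : n + 1 ≤ h z
    · obtain ⟨s₁, hs₁⟩ := (hf _ _).1 hn
      refine ⟨max s₀ (s₁ + 1), fun s hs => ?_⟩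
      simp only [cnt]
      rw [hs₀ s (by omega), if_pos (orUpTo_iff.2 ⟨s₁, by omega, hs₁⟩)]
      omega
    · refine ⟨s₀, fun s hs => ?_⟩
      simp only [cnt]
      rw [hs₀ s hs, if_neg]
      · omega
      · intro hc
        obtain ⟨s₁, _, hs₁⟩ := orUpTo_iff.1 hc
        exact hn ((hf _ _).2 ⟨s₁, hs₁⟩)

theorem encard_changes {H : ℕ → ℕ} {n : ℕ} (hn : ∀ s, H s ≤ n) (hm : ∀ s s', s ≤ s' → H s ≤ H s') :
    {s | H (s + 1) ≠ H s}.encard ≤ n := by
  have hinj : Set.InjOn H {s | H (s + 1) ≠ H s} := by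
    have key : ∀ s s', s < s' → H (s + 1) ≠ H s → H s < H s' := by
      intro s s' hlt hne
      have h1 := hm s (s + 1) (by omega)
      have h2 := hm (s + 1) s' hlt
      omega
    intro s hs s' hs' heq
    rcases lt_trichotomy s s' with h | h | h
    · have := key s s' h hs
      omega
    · exact h
    · have := key s' s h hs'
      omega
  have hmaps : H '' {s | H (s + 1) ≠ H s} ⊆ (Finset.range n : Set ℕ) := by
    rintro _ ⟨s, hs, rfl⟩
    have h1 := hm s (s + 1) (by omega)
    have h2 := hn (s + 1)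
    have h3 : H (s + 1) ≠ H s := hs
    simp only [Finset.coe_range, Set.mem_Iio]
    omega
  calc {s | H (s + 1) ≠ H s}.encard = (H '' {s | H (s + 1) ≠ H s}).encard := hinj.encard_image.symm
    _ ≤ (Finset.range n : Set ℕ).encard := Set.encard_le_encard hmaps
    _ = n := by rw [Set.encard_coe_eq_coe_finsetCard, Finset.card_range]

/-- A set given by the parity of a counter which is approximable from below. -/
theorem ersh_of_counter {n : ℕ} {h : ℕ → ℕ} (hn : ∀ z, h z ≤ n)
    (hre : REPred fun q : ℕ × ℕ => q.1 ≤ h q.2) {D : Set ℕ} (hD : ∀ z, z ∈ D ↔ h z % 2 = 1) :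
    ErshovSigma n D := by
  obtain ⟨f, hf, h1⟩ := re_iff.1 hre
  have hf' : ∀ m z, m ≤ h z ↔ ∃ s, f (m, z) s = true := fun m z => h1 (m, z)
  refine ⟨fun z s => decide (cnt f n z s % 2 = 1), ?_, fun z => ?_, fun z => ?_, fun z => ?_⟩
  · exact (PrimrecRel.decide Primrec.eq).to_comp.comp
      (Primrec.nat_mod.to_comp.comp (computable_cnt hf n) (Computable.const 2)) (Computable.const 1)
  · simp [cnt_zero]
  · have hsub : {s | decide (cnt f n z (s + 1) % 2 = 1) ≠ decide (cnt f n z s % 2 = 1)} ⊆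
        {s | cnt f n z (s + 1) ≠ cnt f n z s} := by
      intro s hs h
      exact hs (by rw [h])
    exact (Set.encard_le_encard hsub).trans
      (encard_changes (fun s => cnt_le f n z s) fun s s' => cnt_mono f n z)
  · obtain ⟨s₀, hs₀⟩ := cnt_limit hf' n z
    refine ⟨s₀, fun s hs => ?_⟩
    beta_reduce
    rw [hs₀ s hs, min_eq_right (hn z), hD]
    simp

/-- number of changes before stage `s` -/
def chg (g : ℕ → ℕ → Bool) (z : ℕ) : ℕ → ℕ
  | 0 => 0
  | s + 1 => chg g z s + (if g z (s + 1) = g z s then 0 else 1)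

theorem computable_chg {g : ℕ → ℕ → Bool} (hg : Computable₂ g) : Computable₂ (chg g) := by
  have h1 : Computable fun q : ℕ × ℕ =>
      (Nat.rec 0 (fun s ih => ih + (bif decide (g q.1 (s + 1) = g q.1 s) then 0 else 1)) q.2 : ℕ) := by
    have h2 : Computable₂ fun (q : ℕ × ℕ) (p : ℕ × ℕ) =>
        p.2 + (bif decide (g q.1 (p.1 + 1) = g q.1 p.1) then 0 else 1 : ℕ) := by
      have hz : Computable fun w : (ℕ × ℕ) × ℕ × ℕ => w.1.1 := Computable.fst.comp Computable.fst
      have hs : Computable fun w : (ℕ × ℕ) × ℕ × ℕ => w.2.1 := Computable.fst.comp Computable.snd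
      have h3 : Computable fun w : (ℕ × ℕ) × ℕ × ℕ =>
          decide (g w.1.1 (w.2.1 + 1) = g w.1.1 w.2.1) :=
        (PrimrecRel.decide Primrec.eq).to_comp.comp
          (hg.comp hz (Computable.succ.comp hs)) (hg.comp hz hs)
      exact Primrec.nat_add.to_comp.comp (Computable.snd.comp Computable.snd)
        (Computable.cond h3 (Computable.const 0) (Computable.const 1))
    exact Computable.nat_rec (α := ℕ × ℕ) (σ := ℕ) Computable.snd (Computable.const 0) h2
  refine h1.of_eq fun q => ?_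
  obtain ⟨z, s⟩ := q
  show _ = chg g z s
  simp only
  induction s with
  | zero => rfl
  | succ s ih =>
    simp only [chg]
    rw [← ih]
    by_cases h : g z (s + 1) = g z s
    · simp [h]
    · simp [h]

theorem chg_parity {g : ℕ → ℕ → Bool} {z : ℕ} (h0 : g z 0 = false) (s : ℕ) :
    g z s = true ↔ chg g z s % 2 = 1 := by
  induction s with
  | zero => simp [h0, chg]
  | succ s ih =>
    simp only [chg]
    by_cases h : g z (s + 1) = g z s
    · rw [if_pos h, h, ih, Nat.add_zero]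
    · rw [if_neg h]
      have h1 : g z (s + 1) = true ↔ ¬ g z s = true := by
        cases h2 : g z (s + 1) <;> cases h3 : g z s <;> simp_all
      rw [h1, ih]
      omega

theorem chg_mono {g : ℕ → ℕ → Bool} {z s s' : ℕ} (h : s ≤ s') : chg g z s ≤ chg g z s' := by
  induction s', h using Nat.le_induction with
  | base => exact le_rfl
  | succ n _ ih =>
    refine ih.trans ?_
    simp only [chg]
    omega

theorem chg_eq_card {g : ℕ → ℕ → Bool} {z : ℕ} (s : ℕ) :
    chg g z s = ((Finset.range s).filter fun i => g z (i + 1) ≠ g z i).card := by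
  induction s with
  | zero => rfl
  | succ s ih =>
    simp only [chg]
    rw [Finset.range_add_one, Finset.filter_insert]
    by_cases h : g z (s + 1) = g z s
    · rw [if_pos h, if_neg (by simp [h]), ih, Nat.add_zero]
    · rw [if_neg h, if_pos h, Finset.card_insert_of_notMem (by simp), ih]

theorem chg_le {g : ℕ → ℕ → Bool} {z n : ℕ} (h : {s | g z (s + 1) ≠ g z s}.encard ≤ n) (s : ℕ) :
    chg g z s ≤ n := by
  rw [chg_eq_card]
  have h1 : (((Finset.range s).filter fun i => g z (i + 1) ≠ g z i : Finset ℕ) : Set ℕ) ⊆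
      {s | g z (s + 1) ≠ g z s} := by
    intro i hi
    simp only [Finset.coe_filter, Set.mem_ofPred_eq] at hi
    exact hi.2
  have h2 := (Set.encard_le_encard h1).trans h
  rw [Set.encard_coe_eq_coe_finsetCard] at h2
  exact_mod_cast h2

/-- Every set in `Σ_n^{-1}` is given by a code. -/
theorem exists_code_of_ersh {n : ℕ} {D : Set ℕ} (h : ErshovSigma n D) :
    ∃ e, ∀ z, z ∈ D ↔ cF n e z % 2 = 1 := by
  obtain ⟨g, hg, h0, hch, hlim⟩ := h
  have hre : REPred fun w : ℕ => ∃ s, w.unpair.1 + 1 ≤ chg g w.unpair.2 s := by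
    refine re_iff.2 ⟨fun w s => decide (w.unpair.1 + 1 ≤ chg g w.unpair.2 s), ?_, fun w => by simp⟩
    have hu : Computable fun q : ℕ × ℕ => q.1.unpair := Computable.unpair.comp Computable.fst
    exact (PrimrecRel.decide Primrec.nat_le).to_comp.comp
      (Computable.succ.comp (Computable.fst.comp hu))
      ((computable_chg hg).comp (Computable.snd.comp hu) Computable.snd)
  obtain ⟨e, he⟩ := exists_code_of_re hre
  refine ⟨e, fun z => ?_⟩
  have hcF : ∀ m, m ≤ cF n e z ↔ ∃ s, m ≤ chg g z s := by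
    intro m
    rw [le_cF]
    constructor
    · rintro ⟨_, s, hs⟩
      rcases m with _ | m
      · exact ⟨0, Nat.zero_le _⟩
      · have h1 := (he (Nat.pair m z)).2 ⟨s, hs m (Nat.lt_succ_self m)⟩
        simpa using h1
    · rintro ⟨s, hs⟩
      refine ⟨hs.trans (chg_le (hch z) s), ?_⟩
      have h1 : ∀ i, ∃ s', i < m → wn e s' (Nat.pair i z) := by
        intro i
        by_cases hi : i < m
        · obtain ⟨s', hs'⟩ := (he (Nat.pair i z)).1 ⟨s, by simp; omega⟩
          exact ⟨s', fun _ => hs'⟩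
        · exact ⟨0, fun h => absurd h hi⟩
      choose S hS using h1
      refine ⟨∑ i ∈ Finset.range m, S i, fun i hi => wn_mono ?_ (hS i hi)⟩
      exact Finset.single_le_sum (f := S) (fun _ _ => Nat.zero_le _) (Finset.mem_range.2 hi)
  obtain ⟨s₀, hs₀⟩ := hlim z
  obtain ⟨s₁, hs₁⟩ := (hcF (cF n e z)).1 le_rfl
  have h1 : chg g z (max s₀ s₁) = cF n e z := by
    apply le_antisymm
    · exact (hcF _).2 ⟨_, le_rfl⟩
    · exact hs₁.trans (chg_mono (le_max_right _ _))
  rw [← h1, ← chg_parity (h0 z), hs₀ _ (le_max_left _ _)]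

end Pool.Agent.Helper65.RogersN
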