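import Pool.Agent.Helper65.RogersN.Count
import Pool.Agent.Helper65.Rogers.Beta

set_option autoImplicit false

open Nat.Partrec

namespace Pool.Agent.Helper65.RogersN

open Pool.Agent.Helper65.Rogers (X Xs wn mk cOf kOf jOf tagOf cOf_mk kOf_mk jOf_mk tagOf_mk
  re_of_exists_primrec pp_eq exists_code_of_re re_comp computable_of_re_graph)

/-- the least odd number `≥ h` -/
def up (h : ℕ) : ℕ := if h % 2 = 1 then h else h + 1

theorem up_odd (h : ℕ) : up h % 2 = 1 := by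
  unfold up
  split_ifs <;> omega

noncomputable def fF (n x : ℕ) : ℕ := cF n (cOf x) (Nat.pair (kOf x) x)
noncomputable def fX (n x : ℕ) : ℕ := cX n (cOf x) (Nat.pair (kOf x) x) (jOf x)

/-- an even number of changes, not zero -/
def ev (c : ℕ) : Prop := c % 2 = 0 ∧ 2 ≤ c

theorem ev_iff (c : ℕ) : ev c ↔ (c - 1) % 2 = 1 := by
  unfold ev
  omega

open Classical in
noncomputable def hP (n j x : ℕ) : ℕ :=
  if tagOf x = 0 then (if jOf x = j then 1 else fF n x - 1)
  else if tagOf x = 1 then fF n x - 1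
  else if tagOf x = 2 then (if jOf x = j then 1 else fX n x - 1)
  else (if jOf x = j ∧ X j then up (fX n x - 1) else fF n x - 1)

noncomputable def hQ (n j x : ℕ) : ℕ :=
  if tagOf x = 0 then (if jOf x = j then 1 else fF n x - 1)
  else if tagOf x = 1 then (if jOf x = j then 1 else fF n x - 1)
  else if tagOf x = 2 then fX n x - 1
  else fF n x - 1

def P (n j : ℕ) : Set ℕ := {x | hP n j x % 2 = 1}
def Q (n j : ℕ) : Set ℕ := {x | hQ n j x % 2 = 1}

def BB (n c k j τ : ℕ) : Prop := ev (cF n c (Nat.pair k (mk c k j τ)))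
def EE (n c k j : ℕ) : Prop := ev (cX n c (Nat.pair k (mk c k j 2)) j)

theorem EE_iff_BB {n c k j : ℕ} (hX : ¬ X j) : EE n c k j ↔ BB n c k j 2 := by
  unfold EE BB
  rw [cX_eq_cF hX]

theorem mem_P0 (n c k j j' : ℕ) : mk c k j 0 ∈ P n j' ↔ j = j' ∨ BB n c k j 0 := by
  simp only [P, Set.mem_ofPred_eq, hP, tagOf_mk, jOf_mk, fF, cOf_mk, kOf_mk, BB, ev_iff, if_true]
  split_ifs with h
  · simp [h]
  · simp [h]

theorem mem_Q0 (n c k j j' : ℕ) : mk c k j 0 ∈ Q n j' ↔ j = j' ∨ BB n c k j 0 := by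
  simp only [Q, Set.mem_ofPred_eq, hQ, tagOf_mk, jOf_mk, fF, cOf_mk, kOf_mk, BB, ev_iff, if_true]
  split_ifs with h
  · simp [h]
  · simp [h]

theorem mem_P1 (n c k j j' : ℕ) : mk c k j 1 ∈ P n j' ↔ BB n c k j 1 := by
  simp only [P, Set.mem_ofPred_eq, hP, tagOf_mk, fF, cOf_mk, kOf_mk, BB, ev_iff, if_true,
    one_ne_zero, if_false]

theorem mem_Q1 (n c k j j' : ℕ) : mk c k j 1 ∈ Q n j' ↔ j = j' ∨ BB n c k j 1 := by
  simp only [Q, Set.mem_ofPred_eq, hQ, tagOf_mk, jOf_mk, fF, cOf_mk, kOf_mk, BB, ev_iff, if_true,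
    one_ne_zero, if_false]
  split_ifs with h
  · simp [h]
  · simp [h]

theorem mem_P2 (n c k j j' : ℕ) : mk c k j 2 ∈ P n j' ↔ j = j' ∨ EE n c k j := by
  have h20 : (2 : ℕ) ≠ 0 := by norm_num
  have h21 : (2 : ℕ) ≠ 1 := by norm_num
  simp only [P, Set.mem_ofPred_eq, hP, tagOf_mk, jOf_mk, fX, cOf_mk, kOf_mk, EE, ev_iff, if_true,
    h20, h21, if_false]
  split_ifs with h
  · simp [h]
  · simp [h]

theorem mem_Q2 (n c k j j' : ℕ) : mk c k j 2 ∈ Q n j' ↔ EE n c k j := by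
  have h20 : (2 : ℕ) ≠ 0 := by norm_num
  have h21 : (2 : ℕ) ≠ 1 := by norm_num
  simp only [Q, Set.mem_ofPred_eq, hQ, tagOf_mk, jOf_mk, fX, cOf_mk, kOf_mk, EE, ev_iff, if_true,
    h20, h21, if_false]

theorem mem_P3 (n c k j j' : ℕ) :
    mk c k j 3 ∈ P n j' ↔ (j = j' ∧ X j') ∨ BB n c k j 3 := by
  classical
  have h30 : (3 : ℕ) ≠ 0 := by norm_num
  have h31 : (3 : ℕ) ≠ 1 := by norm_num
  have h32 : (3 : ℕ) ≠ 2 := by norm_num
  simp only [P, Set.mem_ofPred_eq, hP, tagOf_mk, jOf_mk, fF, cOf_mk, kOf_mk, BB, ev_iff,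
    h30, h31, h32, if_false]
  split_ifs with h
  · simp [h, up_odd]
  · simp [h]

theorem mem_Q3 (n c k j j' : ℕ) : mk c k j 3 ∈ Q n j' ↔ BB n c k j 3 := by
  have h30 : (3 : ℕ) ≠ 0 := by norm_num
  have h31 : (3 : ℕ) ≠ 1 := by norm_num
  have h32 : (3 : ℕ) ≠ 2 := by norm_num
  simp only [Q, Set.mem_ofPred_eq, hQ, tagOf_mk, fF, cOf_mk, kOf_mk, BB, ev_iff,
    h30, h31, h32, if_false]

/-- a code of the empty set -/
theorem exists_empty_code (n : ℕ) : ∃ c, ∀ z, ¬ ev (cF n c z) := by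
  obtain ⟨c, hc⟩ := Pool.Agent.Helper65.Rogers.exists_empty_code
  refine ⟨c, fun z h => ?_⟩
  have h1 : 1 ≤ cF n c z := le_trans (by norm_num) h.2
  obtain ⟨_, s, hs⟩ := le_cF.1 h1
  exact hc _ _ (hs 0 (by norm_num))

theorem P_ne_Q (n j j' : ℕ) : P n j ≠ Q n j' := by
  obtain ⟨c, hc⟩ := exists_empty_code n
  intro h
  have h1 : mk c 0 j' 1 ∈ Q n j' := (mem_Q1 _ _ _ _ _).2 (Or.inl rfl)
  rw [← h, mem_P1] at h1
  exact hc _ h1

theorem type_unique {n j j' : ℕ}
    (h : P n j = P n j' ∨ P n j = Q n j' ∨ Q n j = P n j' ∨ Q n j = Q n j') : j = j' := by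
  obtain ⟨c, hc⟩ := exists_empty_code n
  have hB : ∀ τ, ¬ BB n c 0 j τ := fun τ => hc _
  have hp : mk c 0 j 0 ∈ P n j := (mem_P0 _ _ _ _ _).2 (Or.inl rfl)
  have hq : mk c 0 j 0 ∈ Q n j := (mem_Q0 _ _ _ _ _).2 (Or.inl rfl)
  rcases h with h | h | h | h
  · rw [h, mem_P0] at hp
    exact hp.resolve_right (hB 0)
  · rw [h, mem_Q0] at hp
    exact hp.resolve_right (hB 0)
  · rw [h, mem_P0] at hq
    exact hq.resolve_right (hB 0)
  · rw [h, mem_Q0] at hq
    exact hq.resolve_right (hB 0)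

noncomputable def alphaN (n i : ℕ) : Set ℕ := if i % 2 = 0 then P n (i / 2) else Q n (i / 2)

theorem alphaN_even (n j : ℕ) : alphaN n (2 * j) = P n j := by
  unfold alphaN
  rw [if_pos (by omega)]
  congr 1
  omega

theorem alphaN_odd (n j : ℕ) : alphaN n (2 * j + 1) = Q n j := by
  unfold alphaN
  rw [if_neg (by omega)]
  congr 1
  omega

theorem exists_of_mem_range {n : ℕ} {S : Set ℕ} (h : S ∈ Set.range (alphaN n)) :
    ∃ j, S = P n j ∨ S = Q n j := by
  obtain ⟨i, rfl⟩ := h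
  refine ⟨i / 2, ?_⟩
  unfold alphaN
  split_ifs
  · exact Or.inl rfl
  · exact Or.inr rfl

theorem re_one_le_cF (n : ℕ) (hn : 1 ≤ n) (c : ℕ) : REPred fun z => 1 ≤ cF n c z := by
  refine re_of_exists_primrec (R := fun q : ℕ × ℕ => Cg c 1 q.2 q.1)
    (primrec_Cg (Primrec.const c) (Primrec.const 1) Primrec.snd Primrec.fst) fun z => ?_
  rw [le_cF]
  exact and_iff_right hn

theorem numbering_structure {n : ℕ} (hn : 1 ≤ n) {γ : ℕ → Set ℕ}
    (hr : Set.range γ = Set.range (alphaN n)) {c : ℕ}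
    (hγc : ∀ k x, x ∈ γ k ↔ cF n c (Nat.pair k x) % 2 = 1) :
    ∃ (t : ℕ → ℕ) (Y G N : ℕ → Prop), Computable t ∧ REPred Y ∧ REPred G ∧ REPred N ∧
      (∀ k, (Y k ∧ γ k = Q n (t k)) ∨ (¬ Y k ∧ γ k = P n (t k))) ∧
      (∀ k, X (t k) → (¬ Y k ↔ N k)) ∧ (∀ k, ¬ X (t k) → (¬ Y k ↔ G k)) := by
  classical
  have hA := re_one_le_cF n hn c
  have hγ : ∀ k x, x ∈ γ k ↔ 1 ≤ cF n c (Nat.pair k x) ∧ ¬ ev (cF n c (Nat.pair k x)) := by
    intro k x
    rw [hγc]
    unfold ev
    omega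
  have hex : ∀ k, ∃ j, γ k = P n j ∨ γ k = Q n j := by
    intro k
    exact exists_of_mem_range (hr ▸ ⟨k, rfl⟩)
  choose t ht using hex
  have hB0 : ∀ k j, ¬ BB n c k j 0 := by
    intro k j h
    have h1 : mk c k j 0 ∈ γ k := by
      rcases ht k with h2 | h2
      · rw [h2, mem_P0]
        exact Or.inr h
      · rw [h2, mem_Q0]
        exact Or.inr h
    exact ((hγ _ _).1 h1).2 h
  have hB1 : ∀ k j, ¬ BB n c k j 1 := by
    intro k j h
    have h1 : mk c k j 1 ∈ γ k := by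
      rcases ht k with h2 | h2
      · rw [h2, mem_P1]
        exact h
      · rw [h2, mem_Q1]
        exact Or.inr h
    exact ((hγ _ _).1 h1).2 h
  have hB3 : ∀ k j, ¬ BB n c k j 3 := by
    intro k j h
    have h1 : mk c k j 3 ∈ γ k := by
      rcases ht k with h2 | h2
      · rw [h2, mem_P3]
        exact Or.inr h
      · rw [h2, mem_Q3]
        exact h
    exact ((hγ _ _).1 h1).2 h
  have hB2 : ∀ k j, ¬ X j → ¬ BB n c k j 2 := by
    intro k j hX h
    have h1 : mk c k j 2 ∈ γ k := by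
      rcases ht k with h2 | h2
      · rw [h2, mem_P2]
        exact Or.inr ((EE_iff_BB hX).2 h)
      · rw [h2, mem_Q2]
        exact (EE_iff_BB hX).2 h
    exact ((hγ _ _).1 h1).2 h
  have hT : ∀ k j, 1 ≤ cF n c (Nat.pair k (mk c k j 0)) ↔ t k = j := by
    intro k j
    have h1 : mk c k j 0 ∈ γ k ↔ j = t k := by
      rcases ht k with h2 | h2
      · rw [h2, mem_P0]
        exact or_iff_left (hB0 k j)
      · rw [h2, mem_Q0]
        exact or_iff_left (hB0 k j)
    rw [hγ] at h1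
    constructor
    · intro h
      exact (h1.1 ⟨h, hB0 k j⟩).symm
    · intro h
      exact (h1.2 h.symm).1
  have hmk : ∀ {f : ℕ → ℕ} (_ : Computable f) (τ : ℕ),
      Computable fun k => Nat.pair k (mk c k (f k) τ) := by
    intro f hf τ
    unfold mk
    have hp := Primrec₂.natPair.to_comp
    exact hp.comp Computable.id (hp.comp (Computable.const c) (hp.comp Computable.id
      (hp.comp hf (Computable.const τ))))
  have htc : Computable t := by
    refine computable_of_re_graph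
      (T := fun q : ℕ × ℕ => 1 ≤ cF n c (Nat.pair q.1 (mk c q.1 q.2 0)))
      (re_comp hA ?_) fun k j => hT k j
    unfold mk
    have hp := Primrec₂.natPair.to_comp
    exact hp.comp Computable.fst (hp.comp (Computable.const c) (hp.comp Computable.fst
      (hp.comp Computable.snd (Computable.const 0))))
  refine ⟨t, fun k => 1 ≤ cF n c (Nat.pair k (mk c k (t k) 1)),
    fun k => 1 ≤ cF n c (Nat.pair k (mk c k (t k) 2)),
    fun k => 1 ≤ cF n c (Nat.pair k (mk c k (t k) 3)), htc, re_comp hA (hmk htc 1),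
    re_comp hA (hmk htc 2), re_comp hA (hmk htc 3), ?_, ?_, ?_⟩
  all_goals intro k
  · by_cases hk : 1 ≤ cF n c (Nat.pair k (mk c k (t k) 1))
    · refine Or.inl ⟨hk, (ht k).resolve_left fun h => ?_⟩
      have h1 : mk c k (t k) 1 ∈ γ k := (hγ _ _).2 ⟨hk, hB1 k _⟩
      rw [h, mem_P1] at h1
      exact hB1 k _ h1
    · refine Or.inr ⟨hk, (ht k).resolve_right fun h => hk ?_⟩
      have h1 : mk c k (t k) 1 ∈ γ k := by
        rw [h, mem_Q1]
        exact Or.inl rfl
      exact ((hγ _ _).1 h1).1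
  · intro hX
    constructor
    · intro hk
      have hP : γ k = P n (t k) := by
        refine (ht k).resolve_right fun h => hk ?_
        have h1 : mk c k (t k) 1 ∈ γ k := by
          rw [h, mem_Q1]
          exact Or.inl rfl
        exact ((hγ _ _).1 h1).1
      have h1 : mk c k (t k) 3 ∈ γ k := by
        rw [hP, mem_P3]
        exact Or.inl ⟨rfl, hX⟩
      exact ((hγ _ _).1 h1).1
    · intro hk hY
      have h1 : mk c k (t k) 1 ∈ γ k := (hγ _ _).2 ⟨hY, hB1 k _⟩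
      have h3 : mk c k (t k) 3 ∈ γ k := (hγ _ _).2 ⟨hk, hB3 k _⟩
      rcases ht k with h | h
      · rw [h, mem_P1] at h1
        exact hB1 k _ h1
      · rw [h, mem_Q3] at h3
        exact hB3 k _ h3
  · intro hX
    constructor
    · intro hk
      have hP : γ k = P n (t k) := by
        refine (ht k).resolve_right fun h => hk ?_
        have h1 : mk c k (t k) 1 ∈ γ k := by
          rw [h, mem_Q1]
          exact Or.inl rfl
        exact ((hγ _ _).1 h1).1
      have h1 : mk c k (t k) 2 ∈ γ k := by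
        rw [hP, mem_P2]
        exact Or.inl rfl
      exact ((hγ _ _).1 h1).1
    · intro hk hY
      have h1 : mk c k (t k) 1 ∈ γ k := (hγ _ _).2 ⟨hY, hB1 k _⟩
      have h2 : mk c k (t k) 2 ∈ γ k := (hγ _ _).2 ⟨hk, hB2 k _ hX⟩
      rcases ht k with h | h
      · rw [h, mem_P1] at h1
        exact hB1 k _ h1
      · rw [h, mem_Q2] at h2
        exact hB2 k _ hX ((EE_iff_BB hX).1 h2)

end Pool.Agent.Helper65.RogersN
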